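import Mathlib

namespace Pool.Agent.Results.MP_32b555_nt.Unique

/-- the set k X + h -/
def aff (k h : ℕ) (X : Set ℕ) : Set ℕ := (fun x => k * x + h) '' X

/-- an upper quasi-density on H; only the values on subsets of H matter -/
def IsUQD (H : Set ℕ) (μ : Set ℕ → ℝ) : Prop :=
  μ H = 1 ∧ (∀ X ⊆ H, ∀ Y ⊆ H, μ (X ∪ Y) ≤ μ X + μ Y) ∧
    (∀ X ⊆ H, ∀ k h : ℕ, 0 < k → 0 < h → μ (aff k h X) = 1 / k * μ X) ∧ ∀ X ⊆ H, μ X ≤ 1

theorem aff_pos (k : ℕ) {h : ℕ} (hh : 0 < h) (X : Set ℕ) : aff k h X ⊆ {n | 0 < n} := by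
  rintro _ ⟨x, -, rfl⟩
  simp only [Set.mem_setOf_eq]; omega

theorem result (μ : Set ℕ → ℝ) (hμ : IsUQD {n | 0 < n} μ) :
    ∃! ν : Set ℕ → ℝ, IsUQD Set.univ ν ∧ ∀ X ⊆ {n | 0 < n}, ν X = μ X := by
  obtain ⟨h1, h2, h3, h4⟩ := hμ
  refine ⟨fun X => μ (aff 1 1 X), ⟨⟨?_, ?_, ?_, ?_⟩, ?_⟩, ?_⟩
  · have : aff 1 1 Set.univ = {n | 0 < n} := by
      ext n
      simp only [aff, Set.image_univ, Set.mem_range, Set.mem_setOf_eq]
      exact ⟨fun ⟨y, hy⟩ => by omega, fun h => ⟨n - 1, by omega⟩⟩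
    simp only [this, h1]
  · intro X _ Y _
    have : aff 1 1 (X ∪ Y) = aff 1 1 X ∪ aff 1 1 Y := Set.image_union _ _ _
    simp only [this]
    exact h2 _ (aff_pos 1 one_pos X) _ (aff_pos 1 one_pos Y)
  · intro X _ k h hk hh
    have e1 := h3 _ (aff_pos 1 one_pos (aff k h X)) 1 k one_pos hk
    have e2 := h3 _ (aff_pos 1 one_pos X) k (h + 1) hk (by omega)
    have : aff 1 k (aff 1 1 (aff k h X)) = aff k (h + 1) (aff 1 1 X) := by
      simp only [aff, Set.image_image]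
      congr 1
      funext x
      ring
    rw [this, e2] at e1
    simpa using e1.symm
  · intro X _
    exact h4 _ (aff_pos 1 one_pos X)
  · intro X hX
    simpa using h3 X hX 1 1 one_pos one_pos
  · rintro ν ⟨⟨-, -, g3, -⟩, g5⟩
    funext X
    rw [← g5 _ (aff_pos 1 one_pos X), g3 X (Set.subset_univ X) 1 1 one_pos one_pos]
    simp

end Pool.Agent.Results.MP_32b555_nt.Unique
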